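import Pool.Agent.helper96.S5.SpecL

/-!
# Row s5:REC (`EC` is `Π_3`)
-/

set_option autoImplicit false

namespace S5

open PF

theorem REC_congr {L : Type} [Lattice L] [BoundedOrder L] {n : ℕ} {b : Bool} {P Q : Pp L}
    (h : ∀ δ e, P δ e ↔ Q δ e) (hP : Rp L n b P) : Rp L n b Q := by
  obtain ⟨q, μ, h1, h2⟩ := hP
  exact ⟨q, μ, h1, fun δ e => (h δ e).symm.trans (h2 δ e)⟩

/-- ROW s5:REC -/
theorem REC_row (hPMO : PMO_stmt) (hPQX : PQX_stmt) (hPNG : PNG_stmt) (hPAO : PAO_stmt)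
    (hPAT : PAT_stmt) (hRJY : RJY_stmt) (hRKS : RKS_stmt) : REC_stmt := by
  intro L _ _ pi c i1 i2 i3 i4
  have hand : ∀ P Q : Pp L, Rp L 2 false P → Rp L 2 false Q → Rp L 2 false (fun δ e => P δ e ∧ Q δ e) :=
    fun P Q hP hQ => (hPAO L 2 false P Q hP hQ).1
  have hJ : ∀ (qi : ℕ → ℕ) (t : Tm), Rp L 2 false (fun _ e => Jm (fun i => e (qi i)) (t.ev e)) :=
    fun qi t => hPMO L 1 false false _ (hRJY L qi t).1
  have hNJ : ∀ (qi : ℕ → ℕ) (t : Tm), Rp L 2 false (fun _ e => ¬ Jm (fun i => e (qi i)) (t.ev e)) :=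
    fun qi t => hPMO L 1 true false _ (hPNG L 1 false _ (hRJY L qi t).1)
  have hEq : ∀ s t : Tm, Rp L 2 false (fun _ e => s.ev e = t.ev e) := (hPAT L 2 false).2.2.2.2
  have hNle : ∀ s t : Tm, Rp L 2 false (fun _ e => ¬ s.ev e ≤ t.ev e) :=
    fun s t => hPNG L 2 true _ ((hPAT L 2 true).2.2.2.1 s t)
  have hK : ∀ (qi : ℕ → ℕ) (t : Tm), Rp L 2 false (fun _ e => Ks (fun i => e (qi i)) (t.ev e)) := hRKS L
  -- the part after the two quantifiers
  have inner := hand _ _ (hJ (fun i => pi i + 2) (.var 0)) (hand _ _ (hEq (.inf (.var 1) (.var 0)) .bot)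
    (hand _ _ (hNle (.var 0) (.var (pi 0 + 2)))
    (hand _ _ (hK (fun i => pi i + 2) (.inf (.var (pi c + 2)) (.var 0)))
    (hand _ _ (hK (fun i => pi i + 2) (.inf (.inf (.var (i2 + 2)) (.var (pi 5 + 2))) (.var 0)))
    (hand _ _ (hK (fun i => pi i + 2) (.inf (.inf (.var (i1 + 2)) (.var (pi 6 + 2))) (.var 0)))
    (hand _ _ (hK (fun i => pi i + 2) (.inf (.inf (.var (i4 + 2)) (.var (pi 7 + 2))) (.var 0)))
    (hK (fun i => pi i + 2) (.inf (.inf (.var (i3 + 2)) (.var (pi 8 + 2))) (.var 0)))))))))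
  have mid := (hPAO L 2 false _ _ (hNJ (fun i => pi i + 1) (.var 0)) ((hPQX L 1 _).1 inner)).2
  refine REC_congr ?_ ((hPQX L 2 _).2.2.2 mid)
  intro δ e
  refine forall_congr' fun R => ?_
  rw [imp_iff_not_or]
  rfl

end S5
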